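import Mathlib
import Pool.Agent.MP_450e1b_mp.Defs
import Pool.Agent.MP_450e1b_mp.Mg.H55_Final

namespace Pool.Agent.Results.MP_450e1b_mp.Density

open Pool.Agent.MP_450e1b_mp

/-- `Q_ex(n,k) / C(n,k)` differs from `∏_{i > ⌊(n-2k)/2⌋} (1 - 4^{-i})` by `o(1)` as `n → ∞`,
uniformly in `k ≤ n/2`. -/
theorem result (ε : ℝ) (hε : 0 < ε) : ∃ N : ℕ, ∀ n ≥ N, ∀ k : ℕ, 2 * k ≤ n →
    |(Qex n k : ℝ) / (n.choose k : ℝ)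
      - ∏' i : ℕ, (1 - (1 / 4 : ℝ) ^ ((n - 2 * k) / 2 + 1 + i))| < ε :=
  H55.density_n ε hε

end Pool.Agent.Results.MP_450e1b_mp.Density
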