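import Mathlib
import Pool.Agent.MP_450e1b_mp.Defs
import Pool.Agent.MP_450e1b_mp.H20.TenFive

namespace Pool.Agent.Results.MP_450e1b_mp.Exact10_5

open Pool.Agent.MP_450e1b_mp

/-- `Q_ex(10,5) = 200`. -/
theorem result : Qex 10 5 = 200 := Qex_10_5

end Pool.Agent.Results.MP_450e1b_mp.Exact10_5
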